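import Pool.Agent.MP_fbbd83_al.St.Cls

/-! Probes of length comparable with the level length. -/

namespace Pool.Agent.MP_fbbd83_al.Lc

open Pl

theorem rw0_hit {i z0 : Fin 3} (u : Fin 3) (ω : ℕ → Fin 3) (hi : inact i = z0) (n : ℕ)
    (z : Fin 3) (hz : ∃ t < n, inact (ω t) = z) :
    evP ω (rw0 i u (Zw n ω ([z] ++ [z]))) = 1 := by
  set R : ℕ → Fin 3 → Equiv.Perm Vx := fun t s => evP ω (rw0 i u (Zw t ω [s])) with hR
  have step : ∀ t s, R (t + 1) s =
      if col (ω t) s then R t s * R t s else R t (s + 2) * (R t s * R t (s + 1)) := by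
    intro t s
    simp only [hR, Zw_succ]
    split_ifs with h
    · rw [show zeta (ω t) [s] = [s] ++ [s] by simp [zeta, h], Zw_append, rw0_append, evP_append]
    · rw [show zeta (ω t) [s] = ([s + 1] ++ [s]) ++ [s + 2] by simp [zeta, h], Zw_append,
        Zw_append, rw0_append, rw0_append, evP_append, evP_append]
  have h1 := letP_sq ω none
  have h2 := letP_sq ω (some u)
  have r0 : ∀ s, R 0 s = if s = z0 then letP ω (some u) else letP ω none * letP ω (some u) := by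
    intro s
    by_cases h : s = z0
    · simp [hR, Zw, rw0, h, not_col hi, evP]
    · have : col i s = true := by rw [col_iff, hi]; exact h
      simp [hR, Zw, rw0, h, this, evP]
  suffices h : R n z * R n z = 1 by
    rw [Zw_append, rw0_append, evP_append]; exact h
  clear_value R
  generalize letP ω none = A at *
  generalize letP ω (some u) = B at *
  have sw : ∀ j : ℤ, B * (A * B) ^ j = (A * B) ^ (-j) * B := by
    intro j
    have b1 : B⁻¹ = B := inv_eq_of_mul_eq_one_right h2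
    have a1 : A⁻¹ = A := inv_eq_of_mul_eq_one_right h1
    have e : B * (A * B) * B⁻¹ = (A * B)⁻¹ := by rw [mul_inv_rev, a1, b1, mul_assoc, mul_assoc, h2, mul_one]
    have := conj_zpow (i := j) (a := B) (b := A * B)
    rw [e, inv_zpow', b1] at this
    rw [this, mul_assoc, h2, mul_one]
  let Ev : Equiv.Perm Vx → Prop := fun g => ∃ j : ℤ, g = (A * B) ^ j
  let Od : Equiv.Perm Vx → Prop := fun g => ∃ j : ℤ, g = (A * B) ^ j * B
  have ee : ∀ g g', Ev g → Ev g' → Ev (g * g') := by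
    rintro _ _ ⟨j, rfl⟩ ⟨j', rfl⟩; exact ⟨j + j', by rw [zpow_add]⟩
  have eo : ∀ g g', Ev g → Od g' → Od (g * g') := by
    rintro _ _ ⟨j, rfl⟩ ⟨j', rfl⟩; exact ⟨j + j', by rw [zpow_add, mul_assoc]⟩
  have oe : ∀ g g', Od g → Ev g' → Od (g * g') := by
    rintro _ _ ⟨j, rfl⟩ ⟨j', rfl⟩
    exact ⟨j + -j', by rw [zpow_add, mul_assoc, sw, mul_assoc]⟩
  have oo : ∀ g, Od g → g * g = 1 := by
    rintro _ ⟨j, rfl⟩
    rw [mul_assoc, ← mul_assoc B, sw, mul_assoc, h2, mul_one, ← zpow_add]; simp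
  have key : ∀ t, ∃ v, Od (R t v) ∧ (∀ s, s ≠ v → Ev (R t s)) ∧
      ∀ s, (∃ t' < t, inact (ω t') = s) → s = v ∨ R t s = 1 := by
    intro t
    induction t with
    | zero =>
      refine ⟨z0, ⟨0, by simp [r0]⟩, fun s hs => ⟨1, by simp [r0, hs]⟩, ?_⟩
      rintro s ⟨t', h, -⟩; omega
    | succ t ih =>
      obtain ⟨v, i1, i2, i3⟩ := ih
      have act : ∀ s, s ≠ inact (ω t) → R (t + 1) s = R t s * R t s := fun s hs => by
        rw [step, if_pos ((col_iff _ _).2 hs)]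
      refine ⟨inact (ω t), ?_, fun s hs => ?_, ?_⟩
      · rw [step, not_col rfl, if_neg (by simp)]
        generalize inact (ω t) = s
        have f : ∀ s v : Fin 3, (v = s ∧ s + 1 ≠ v ∧ s + 2 ≠ v) ∨ (v = s + 1 ∧ s ≠ v ∧ s + 2 ≠ v) ∨
            (v = s + 2 ∧ s ≠ v ∧ s + 1 ≠ v) := by decide
        rcases f s v with ⟨a, b, c⟩ | ⟨a, b, c⟩ | ⟨a, b, c⟩
        · exact eo _ _ (i2 _ c) (oe _ _ (a ▸ i1) (i2 _ b))
        · exact eo _ _ (i2 _ c) (eo _ _ (i2 _ b) (a ▸ i1))
        · exact oe _ _ (a ▸ i1) (ee _ _ (i2 _ b) (i2 _ c))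
      · rw [act s hs]
        by_cases h : s = v
        · rw [h, oo _ i1]; exact ⟨0, by simp⟩
        · exact ee _ _ (i2 s h) (i2 s h)
      · rintro s ⟨t', a1, a2⟩
        by_cases hs : s = inact (ω t)
        · exact Or.inl hs
        · right
          rw [act s hs]
          have : t' ≠ t := fun e => hs (by rw [← a2, e])
          rcases i3 s ⟨t', by omega, a2⟩ with h | h
          · rw [h]; exact oo _ i1
          · rw [h, mul_one]
  obtain ⟨v, i1, -, i3⟩ := key n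
  rcases i3 z hz with h | h
  · rw [h]; exact oo _ i1
  · rw [h, mul_one]

open Classical in
theorem probe_gen (ω : ℕ → Fin 3) {z u : Fin 3} {k n c : ℕ} (hc : col (ω k) u = true)
    (x4 : evP (sh (k + 1) ω) (rw0 (ω k) u (Zw n (sh (k + 1) ω) ([z] ++ [z]))) = 1)
    (hcost : ((xi u (Zw n (sh (k + 1) ω) [z])).map (ell ω k)).sum ≤ c)
    (hn : 0 < n) (hact : col (ω (k + 1 + n - 1)) z = true) (hz : inact (ω (k + 1 + n)) = z) :
    ∃ e U, Probe ω z (k + 1) (k + 1 + n + 1) U e ∧ InBall ω (4 * c) e.1 ∧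
      (∀ y : Vx, y.length = k → ∃ δ, U (y ++ [δ])) ∧ ((LV (k + 1)).filter U).card ≤ 2 ^ k := by
  set l := Zw n (sh (k + 1) ω) [z] with hl
  set W := pw (Zw n (sh (k + 1) ω) ([z] ++ [z])) with hW
  set e := evT ω (pw (Zw k ω (xi u l ++ xi u l))) with he
  have e1 : xi u l ++ xi u l = xi u (Zw n (sh (k + 1) ω) ([z] ++ [z])) := by
    rw [Zw_append, xi_append]
  obtain ⟨x1, x2, x3⟩ := sec_xi hc (Zw n (sh (k + 1) ω) ([z] ++ [z]))
  have key : ∀ y : Vx, y.length = k → ∃ c, (∀ δ, e.1 (y ++ [δ]) = y ++ [δ]) ∧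
      SecW ω (k + 1) e (y ++ [c]) W ∧ SecW ω (k + 1) e (y ++ [!c]) [] := by
    intro y hy
    obtain ⟨s1, s2⟩ := secW_sq ω k (xi u l) y hy
    rw [← he] at s1 s2
    rw [e1] at s2
    rcases s2 with s2 | s2
    · refine ⟨true, fun δ => by rw [tree_step, s1, s2.act, x1]; simp, ?_, ?_⟩
      · refine (s2.step true).congr fun v => ?_
        rw [run_red, x2]
      · refine (s2.step false).congr fun v => ?_
        rw [run_red, x3, ← evP_apply, x4]; rfl
    · refine ⟨false, fun δ => by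
        rw [tree_step, s1, s2.act]; simp only [par, par_append, x1]; simp, ?_, ?_⟩
      · refine (s2.step false).congr fun v => ?_
        rw [run_red]
        simp only [sec, sec_append, Bool.not_false, x2, List.append_nil, hW]
      · refine (s2.step true).congr fun v => ?_
        rw [run_red]
        simp only [sec, sec_append, Bool.not_true, x3, List.append_nil]
        rw [← evP_apply, x4]; rfl
  choose! cl k1 k2 k3 using key
  refine ⟨e, fun y => y = y.take k ++ [cl (y.take k)], fun v hv => ?_, ⟨_, ?_, rfl⟩,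
    fun y hy => ⟨cl y, by simp only [List.take_left' hy]⟩, ?_⟩
  · obtain ⟨y, δ, v', hy, rfl⟩ := split_at v k (by omega)
    have hv' : v'.length = n + 1 := by simp at hv; omega
    have e2 : y ++ δ :: v' = (y ++ [δ]) ++ v' := by simp
    have e3 : (y ++ δ :: v').take (k + 1) = y ++ [δ] := by
      rw [e2, List.take_left' (by simp [hy])]
    simp only [e3, List.take_left' hy]
    by_cases hδ : δ = cl y
    · subst hδ
      have r := run_sq (sh (k + 1) ω) (n := n) (z := z) (Or.inr (by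
        rw [← hact]; simp only [sh]; congr 2; omega))
        (by rw [← hz]; simp only [sh]; congr 2; ring) v' hv'
      have e4 : e.1 (y ++ cl y :: v') = y ++ cl y :: v' := by
        have := r []
        rw [List.append_nil] at this
        rw [e2, k2 y hy, k1 y hy, hW, this]; simp [genFun]
      refine ⟨e4, fun _ w => ?_, fun h => absurd rfl h⟩
      rw [e4, e2, List.append_assoc, k2 y hy, k1 y hy, hW, r, List.append_assoc]
      have : sh (n + 1) (sh (k + 1) ω) = sh (k + 1 + n + 1) ω := by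
        funext j; simp only [sh]; congr 1; ring
      rw [this]; simp [run, letFun]
    · have hδ' : δ = !cl y := by
        revert hδ; cases δ <;> cases cl y <;> simp
      subst hδ'
      have e4 : e.1 (y ++ (!cl y) :: v') = y ++ (!cl y) :: v' := by
        rw [e2, k3 y hy, k1 y hy]; rfl
      refine ⟨e4, fun h => by simp at h, fun _ w => ?_⟩
      rw [e4, e2, List.append_assoc, k3 y hy, k1 y hy]; simp [run]
  · rw [length_pw, Zw_append, List.length_append, length_Zw_list]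
    omega
  · rw [← card_LV]
    refine le_trans (Finset.card_le_card (t := (LV k).image (fun y => y ++ [cl y])) fun v hv => ?_)
      Finset.card_image_le
    simp only [Finset.mem_filter, mem_LV] at hv
    exact Finset.mem_image.2 ⟨v.take k, by rw [mem_LV]; simp; omega, hv.2.symm⟩

theorem sum_xi_min (ω : ℕ → Fin 3) (k : ℕ) {u : Fin 3} (hu : u ≠ inact (ω k))
    (hm : ∀ s, s ≠ inact (ω k) → ell ω k u ≤ ell ω k s) (l : List (Fin 3)) :
    ((xi u l).map (ell ω k)).sum ≤ (l.map (ell ω (k + 1))).sum := by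
  induction l with
  | nil => simp [xi]
  | cons s l ih =>
    have : ell ω k u + ell ω k s ≤ ell ω (k + 1) s := by
      rw [ell_succ]
      by_cases h : s = inact (ω k)
      · rw [h, not_col rfl, if_neg (by simp), lenSum_eq ω k (inact (ω k))]
        have f : ∀ u v : Fin 3, u ≠ v → u = v + 1 ∨ u = v + 2 := by decide
        rcases f _ _ hu with e | e <;> rw [← e] <;> omega
      · rw [if_pos ((col_iff _ _).2 h)]
        have := hm s h; omega
    simp only [xi, List.map_cons, List.sum_cons]; omega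

open Classical in
theorem probe_cheap (ω : ℕ → Fin 3) {z0 z u : Fin 3} {k m n : ℕ} (h0 : inact (ω k) = z0)
    (hrun : ∀ t < m, inact (ω (k + 1 + t)) = z0) (hu : inact (ω (k + 1 + m)) = u) (hne : u ≠ z0)
    (hmn : m < n) (hact : col (ω (k + 1 + n - 1)) z = true) (hz : inact (ω (k + 1 + n)) = z) :
    ∃ e U, Probe ω z (k + 1) (k + 1 + n + 1) U e ∧
      InBall ω (2 * lenSum ω (k + 1 + n)) e.1 ∧
      (∀ y : Vx, y.length = k → ∃ δ, U (y ++ [δ])) ∧ ((LV (k + 1)).filter U).card ≤ 2 ^ k := by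
  have : ∃ u c, col (ω k) u = true ∧
      evP (sh (k + 1) ω) (rw0 (ω k) u (Zw n (sh (k + 1) ω) ([z] ++ [z]))) = 1 ∧
      ((xi u (Zw n (sh (k + 1) ω) [z])).map (ell ω k)).sum ≤ c ∧ 2 * c ≤ lenSum ω (k + 1 + n) := by
    by_cases hit : ∃ t < n, inact (sh (k + 1) ω t) = z
    · obtain ⟨u, u1, u2⟩ : ∃ u, u ≠ inact (ω k) ∧ ∀ s, s ≠ inact (ω k) → ell ω k u ≤ ell ω k s := by
        generalize inact (ω k) = v
        have f : ∀ u v : Fin 3, u ≠ v → u = v + 1 ∨ u = v + 2 := by decide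
        have g : ∀ v : Fin 3, v + 1 ≠ v ∧ v + 2 ≠ v := by decide
        rcases le_total (ell ω k (v + 1)) (ell ω k (v + 2)) with h | h
        · exact ⟨v + 1, (g v).1, fun s hs => by rcases f s v hs with rfl | rfl <;> omega⟩
        · exact ⟨v + 2, (g v).2, fun s hs => by rcases f s v hs with rfl | rfl <;> omega⟩
      refine ⟨u, _, (col_iff _ _).2 u1, rw0_hit u _ rfl n z hit, sum_xi_min ω k u1 u2 _, ?_⟩
      rw [← length_Zw_list, ← Zw_add, length_Zw]
      exact ell_tri ω _ z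
    · refine ⟨u, _, by rw [col_iff, h0]; exact hne, rw0_trivial (i := ω k) (sh (k + 1) ω) h0
        (fun t ht => by rw [← hrun t ht]; simp only [sh]; congr 2; ring)
        (by rw [← hu]; simp only [sh]; congr 2; ring) hne n hmn z,
        sum_xi (ell ω k) (lenSum ω k) (ell_tri ω k) u _, ?_⟩
      have a1 := ell_unhit (sh (k + 1) ω) 0 z n (fun t ht e => hit ⟨t, ht, by simpa using e⟩)
      have a2 := lenSum_two_pow ω k (1 + n)
      rw [zero_add] at a1
      rw [length_Zw, a1, ← add_assoc k 1 n] at *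
      rw [pow_add] at a2
      simp only [ell]; linarith
  obtain ⟨u, c, a1, a2, a3, a4⟩ := this
  obtain ⟨e, U, p1, p2, p3⟩ := probe_gen ω a1 a2 a3 (by omega) hact hz
  exact ⟨e, U, p1, p2.mono (by omega), p3⟩

variable {ω : ℕ → Fin 3}

def Cheap (ph : Ph ω) : Prop := InBall ω (2 * lenSum ω ph.P) ph.e.1

theorem first_phase (h : Rich ω) : ∃ ph : Ph ω, ph.b = 0 ∧ ph.hb = 0 ∧ (ph.U = fun _ => True) ∧
    Cheap ph := by
  have : ∃ z P, Run ω z (P + 1) ∧ ∀ t, t < P + 1 → ¬ Run ω z t := by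
    obtain ⟨P, _, a1, a2⟩ := first_run h 0 0
    obtain ⟨Q, _, b1, b2⟩ := first_run h 1 0
    rcases P with _ | P
    · have := run_sep a1 b1 (by decide) (Nat.zero_le _)
      obtain ⟨Q, rfl⟩ : ∃ Q', Q = Q' + 1 := ⟨Q - 1, by omega⟩
      exact ⟨1, Q, b1, fun t => b2 t (Nat.zero_le _)⟩
    · exact ⟨0, P, a1, fun t => a2 t (Nat.zero_le _)⟩
  obtain ⟨z, P, h1, h2⟩ := this
  obtain ⟨e, e1, e2⟩ := probe_first ω (P := P + 1) (act_before h1 (h2 P (by omega)))
    (h1 0 (by omega))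
  refine ⟨⟨0, 0, P + 1, z, fun _ => True, e, le_rfl, by omega, by omega, h1,
    fun t _ ht => win_of_not (h2 t ht), e1, e2.mono (Nat.mul_le_mul_right _ (by omega)), ?_⟩,
    rfl, rfl, rfl, e2⟩
  simp [card_LV]

theorem next_phase (h : Rich ω) (ph : Ph ω) : ∃ ph' : Ph ω, ∃ j, 6 ≤ j ∧
    ph'.P = ph.P + 1 + 1 + j ∧ ph'.b = ph.P + 1 + 1 ∧ ph'.hb = ph.P + 1 ∧ ph'.z ≠ ph.z ∧
    (∀ u : Vx, u.length = ph.P + 1 → ∃ δ, ph'.U (u ++ [δ])) ∧
    Cheap ph' ∧
    17 * (2 ^ (j + 2) * Psi ω ph.P ph.z) ≤ 8 * Psi ω ph'.P ph'.z := by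
  classical
  have hz := ph.run
  generalize ph.P = P at *
  generalize ph.z = z at *
  have : ∃ x y Q R, x ≠ y ∧ x ≠ z ∧ y ≠ z ∧ P ≤ Q ∧ Q ≤ R ∧ Run ω y Q ∧ Run ω x R ∧
      ∀ t, P ≤ t → t < R → ¬ Run ω x t := by
    obtain ⟨Q, a0, a1, a2⟩ := first_run h (z + 1) P
    obtain ⟨R, b0, b1, b2⟩ := first_run h (z + 2) P
    have f : ∀ z : Fin 3, z + 1 ≠ z + 2 ∧ z + 1 ≠ z ∧ z + 2 ≠ z := by decide
    rcases le_total Q R with hQ | hQ
    · exact ⟨_, _, Q, R, (f z).1.symm, (f z).2.2, (f z).2.1, a0, hQ, a1, b1, b2⟩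
    · exact ⟨_, _, R, Q, (f z).1, (f z).2.1, (f z).2.2, b0, hQ, b1, a1, a2⟩
  obtain ⟨x, y, Q, R, h1, h2, h3, h4, h5, h6, h7, h8⟩ := this
  have s1 := run_sep hz h6 h3.symm h4
  have s2 := run_sep h6 h7 h1.symm h5
  obtain ⟨e1, rfl⟩ : ∃ e1, Q = P + 4 + e1 := ⟨Q - (P + 4), by omega⟩
  obtain ⟨e2, rfl⟩ : ∃ e2, R = P + 4 + e1 + 4 + e2 := ⟨R - (P + 4 + e1 + 4), by omega⟩
  have g := Psi_grow (e2 := e2) h1 h2 h3 hz h6
  have hex : ∃ m, inact (ω (P + 1 + 1 + m)) ≠ z := ⟨2 + e1, by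
    have := h6 0 (by omega)
    rw [show P + 1 + 1 + (2 + e1) = P + 4 + e1 + 0 by ring, this]; exact h3⟩
  have hm : Nat.find hex ≤ 2 + e1 := Nat.find_min' hex (by
    have := h6 0 (by omega)
    rw [show P + 1 + 1 + (2 + e1) = P + 4 + e1 + 0 by ring, this]; exact h3)
  have eR : P + 4 + e1 + 4 + e2 = P + 1 + 1 + (6 + e1 + e2) := by ring
  rw [eR] at h7 h8 g
  obtain ⟨e, U, p1, p2, p3, p4⟩ := probe_cheap ω (z := x) (k := P + 1) (n := 6 + e1 + e2)
    (hz 1 (by omega)) (fun t ht => not_not.1 (Nat.find_min hex ht)) rfl (Nat.find_spec hex)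
    (by omega) (act_before (P := P + 1 + 1 + (6 + e1 + e2) - 1)
      (by rwa [Nat.sub_add_cancel (by omega)]) (h8 _ (by omega) (by omega))) (h7 0 (by omega))
  refine ⟨⟨P + 1 + 1, P + 1, P + 1 + 1 + (6 + e1 + e2), x, U, e, by omega, le_rfl, by omega, h7,
    fun t h1 h2 => win_of_not (h8 t (by omega) h2), p1,
    p2.mono (Nat.mul_le_mul_right _ (by omega)), p4⟩, 6 + e1 + e2, by omega, rfl, rfl, rfl, h2,
    p3, p2, ?_⟩
  rwa [show 6 + e1 + e2 + 2 = 4 + e1 + 4 + e2 by ring]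

end Pool.Agent.MP_fbbd83_al.Lc
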