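import Pool.Agent.MP_fbbd83_al.St.Stg
import Pool.Agent.MP_fbbd83_al.Lc.Prb

/-! The doubling step along a prescribed list of levels. -/

namespace Pool.Agent.MP_fbbd83_al.Lc

open Pl Pl.RT St

variable {ω : ℕ → Fin 3}

theorem double {z : Fin 3} {b m G P cG cK : ℕ} {U : Vx → Prop} {κ : ℝ} (hz : inact (ω P) = z)
    (gs : List ℕ) (g1 : gs.length = G) (g2 : gs.Nodup)
    (g3 : ∀ n ∈ gs, m ≤ n ∧ n ≤ P ∧ (n = 0 ∨ col (ω (n - 1)) z = true))
    (g4 : ((gs.map (fun n => jumpL ω z n z)).map (fun h => wl ω h.g)).sum ≤ cG)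
    (hb : b ≤ m) (hm : m ≤ P + 1)
    (hκ : (m = b ∧ κ = 0) ∨ (lenSum ω m ≤ cK ∧ κ = 1)) {t : RT Lf} {n c : ℕ} {μ σ ι δ : ℝ}
    (h : Inv ω z b (P + 1) U t n c μ σ ι δ) :
    ∃ t', Inv ω z b (P + 1) U t' (2 * n) (2 * c + cG + cK)
      (2 * μ + 2 * κ * 2 ^ (m - b))
      (σ + ((1 / 2) ^ G * (2 * κ) + (1 / 2) ^ (G + (m - b)) * (2 * μ)))
      (2 * ι + 12 * κ * 2 ^ m + 16 * (κ * 2 ^ m) * σ +
        8 * (2 ^ b * μ) * ((1 / 2) ^ G * (2 * κ) + (1 / 2) ^ (G + (m - b)) * (2 * μ)))
      (2 * δ) := by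
  obtain ⟨tB, LB, bs, cB, lB, b2, b3, b4, b5, b6, b7, b8, b9⟩ := bad_cube hz hm (m - b) (by omega)
  rw [show m - (m - b) = b by omega] at b4 b5 b7
  have hM : b ≤ P + 1 := by omega
  have k1 : ∀ y : Vx, y.length = m →
      E tB (fun a => ∑ v ∈ LV (P + 1 - m), (a.k (y ++ v) : ℝ)) ≤ 2 * κ := fun y hy => by
    refine (b8 y hy).trans ?_
    rcases hκ with ⟨h1, h2⟩ | ⟨_, h2⟩
    · simp [h1, h2]
    · have : (0 : ℝ) ≤ (1 / 2) ^ (m - b) := by positivity
      rw [h2]; linarith
  have k2 : ∀ y : Vx, y.length = m →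
      E tB (fun a => ∑ v ∈ LV (P + 1 - m), (a.k (y ++ v) : ℝ) ^ 2) ≤ 12 * κ := fun y hy => by
    refine (b9 y hy).trans ?_
    rcases hκ with ⟨h1, h2⟩ | ⟨_, h2⟩
    · simp [h1, h2]
    · have : (0 : ℝ) ≤ (8 * (m - b : ℕ) + 12) * (1 / 2) ^ (m - b) := by positivity
      rw [h2]; linarith
  have k3 : ∀ u : Vx, u.length = b →
      E tB (fun a => ∑ v ∈ LV (P + 1 - b), (a.k (u ++ v) : ℝ)) ≤ 2 * κ * 2 ^ (m - b) := by
    intro u hu
    rw [show P + 1 - b = (m - b) + (P + 1 - m) by omega]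
    simp only [sum_LV_add]
    rw [E_sum]
    refine (Finset.sum_le_sum (g := fun _ => 2 * κ) fun y hy => ?_).trans ?_
    · simpa only [List.append_assoc] using k1 (u ++ y) (by simp [mem_LV.1 hy]; omega)
    · simp [card_LV, mul_comm]
  have iB : Inv ω z b (P + 1) U tB 0 cK (2 * κ * 2 ^ (m - b)) (2 * κ)
      (12 * κ * 2 ^ m) 0 := by
    refine ⟨b7.mono fun a p hp => ?_, fun u hu => le_trans (E_mono _ fun a => ?_) (k3 u hu),
      fun u hu => le_trans (E_mono _ fun a => ?_) (k3 u hu), fun v hv => ?_, ?_,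
      E_le_all (b7.mono fun a p hp => by simp [hp.2.2.2.1])⟩
    · obtain ⟨a1, a2, _, _, a5, rfl⟩ := hp
      refine ⟨⟨a1, a2, Live.nil _ _ _ _⟩, rfl, a5.mono ?_⟩
      rcases hκ with ⟨h1, _⟩ | ⟨h1, _⟩
      · rw [h1] at b5; omega
      · omega
    · exact Finset.sum_le_sum fun v _ => by exact_mod_cast Nat.le_add_right _ _
    · exact Finset.sum_le_sum fun v _ => by exact_mod_cast Nat.le_add_left _ _
    · refine le_trans (E_mono _ fun a => ?_) (k1 (v.take m) (by simp; omega))
      have := Finset.single_le_sum (s := LV (P + 1 - m))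
        (f := fun y => (a.k (v.take m ++ y) : ℝ)) (fun _ _ => by positivity) (a := v.drop m)
        (by rw [mem_LV]; simp; omega)
      simpa using this
    · refine le_trans (E_mono _ (g := fun a => ∑ v ∈ LV (P + 1), (a.k v : ℝ) ^ 2) fun a => ?_) ?_
      · refine Finset.sum_le_sum fun v _ => ?_
        unfold Qn; split_ifs
        · push_cast; exact le_rfl
        · push_cast; positivity
      · conv_lhs => rw [show P + 1 = m + (P + 1 - m) by omega]
        simp only [sum_LV_add]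
        rw [E_sum]
        refine (Finset.sum_le_sum fun y hy => k2 y (mem_LV.1 hy)).trans ?_
        simp [card_LV, mul_comm]
  have okG := jumps_ok (b := b) (r := 0) hz le_rfl gs (fun _ => z) (fun n hn => by
    have := g3 n hn
    exact ⟨by omega, by omega, by omega, (g3 n hn).2.2, by simp⟩)
  have iG := inv_cube U hM le_rfl _ okG g4
  have lG := forall2_jump z gs (fun _ => z) (fun n hn => (g3 n hn).2.2)
  simp only [List.length_map, zero_mul, Nat.cast_zero, mul_zero] at iG
  generalize gs.map (fun n => jumpL ω z n z) = LG at iG lG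
  have i1 := iB.prod' hM h
  have i2 := iG.prod hM i1
    (τ := (1 / 2) ^ G * (2 * κ) + (1 / 2) ^ (G + (m - b)) * (2 * μ)) (fun v hv => by
      simp only [E_prod, Lf.k_mul, Nat.cast_add, E_add, E_const]
      refine add_le_add ?_ ?_
      · rw [E_cubeT LG (fun y => E tB (fun a => (a.k y : ℝ))) v]
        refine (cube_le (b := m) (t := P + 1 - m) lG g2
          (fun n hn => by have := g3 n hn; omega) _
          (fun y => E_nonneg _ fun a => by positivity) v (by omega)).trans ?_
        rw [g1, ← E_sum]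
        exact mul_le_mul_of_nonneg_left (k1 _ (by simp; omega)) (by positivity)
      · have e : ∀ y, E tB (fun a => E t (fun x => (x.k (a.g.1 y) : ℝ))) =
            mkL LB (fun y => E t (fun x => (x.k y : ℝ))) y :=
          fun y => b6 (fun y => E t (fun x => (x.k y : ℝ))) y
        simp only [e]
        rw [E_cubeT LG (mkL LB (fun y => E t (fun x => (x.k y : ℝ)))) v, ← mkL_append]
        refine (cube_le (b := b) (t := P + 1 - b) (List.rel_append lG lB) ?_ ?_ _
          (fun y => E_nonneg _ fun a => by positivity) v (by omega)).trans ?_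
        · refine List.nodup_append.2 ⟨g2, b2, fun x hx y hy => ?_⟩
          have := g3 x hx; have := b4 y hy; omega
        · intro n hn
          rcases List.mem_append.1 hn with hn | hn
          · have := g3 n hn; omega
          · have := b4 n hn; omega
        · rw [List.length_append, g1, b3]
          exact mul_le_mul_of_nonneg_left (h.cyl _ (by simp; omega)) (by positivity))
  have i3 := h.prod' hM i2
  have e : (2 : ℝ) ^ m = 2 ^ b * 2 ^ (m - b) := by rw [← pow_add]; congr 1; omega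
  rw [show 2 * n = n + (0 + (0 + n)) by ring]
  refine ⟨_, i3.mono (by omega) ?_ ?_ ?_ ?_⟩ <;> apply le_of_eq
  · ring
  · ring
  · rw [e]; ring
  · ring

end Pool.Agent.MP_fbbd83_al.Lc
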