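import Pool.Agent.MP_fbbd83_al.Lc.Dbl
import Pool.Agent.MP_fbbd83_al.Pl.Final

/-! Sequences that eventually avoid one symbol, and sequences with bounded runs. -/

namespace Pool.Agent.MP_fbbd83_al.Lc

open Pl Pl.RT St

variable {ω : ℕ → Fin 3}

theorem growth_of_inv {z : Fin 3} {b M K c : ℕ} {U : Vx → Prop} {t : RT Lf} {μ σ ι δ : ℝ}
    (h : Inv ω z b M U t (2 ^ K) c μ σ ι δ) (he : ι + δ ≤ 1 / 8 * 2 ^ K) :
    Real.exp (2 ^ K / 4) ≤ growth (gens ω) c := by
  refine le_trans (Real.exp_le_exp.2 ?_) (Inv.growth h)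
  have l2 := Real.log_two_lt_d9
  have l4 : Real.log 4 = 2 * Real.log 2 := by
    rw [show (4 : ℝ) = 2 ^ 2 by norm_num, Real.log_pow]; norm_num
  have l8 : 0.43 ≤ Real.log (8 / 5) := by
    have b1 := Real.log_two_gt_d9
    have b2 := Real.log_le_sub_one_of_pos (show (0 : ℝ) < 5 / 4 by norm_num)
    rw [show (8 / 5 : ℝ) = 2 / (5 / 4) by norm_num, Real.log_div (by norm_num) (by norm_num)]
    linarith
  have p1 : (0 : ℝ) < 2 ^ K := by positivity
  have a2 := mul_le_mul_of_nonneg_left he (Real.log_nonneg (show (1 : ℝ) ≤ 4 by norm_num))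
  push_cast
  rw [l4] at a2 ⊢
  nlinarith

theorem two_core {z : Fin 3} {P K Λ : ℕ} (hz : inact (ω P) = z)
    (ha : ∀ n < P, col (ω n) z = true) (hP : K + Λ ≤ P) (hΛ : 32 * K ≤ 2 ^ Λ) :
    Real.exp (2 ^ K / 4) ≤ growth (gens ω) (2 ^ K * (1 + K * 2 ^ (Λ + 2))) := by
  have cost : ∀ N ≤ P + 1, (((List.range N).map (fun n => jumpL ω z n z)).map
      (fun h => wl ω h.g)).sum ≤ 2 ^ (N + 1) := by
    intro N
    induction N with
    | zero => simp
    | succ N ih =>
      intro hN
      have a1 := ih (by omega)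
      have a2 : InBall ω (2 * ell ω N z) (jump ω N z).1 :=
        ⟨_, by rw [length_pw, length_Zw], rfl⟩
      have a3 := ell_unhit ω 0 z N (fun t ht e => by
        have := ha t (by omega)
        rw [col_iff] at this; exact this (by simpa using e.symm))
      have a4 : wl ω (jumpL ω z N z).g ≤ _ := wl_le ω a2
      rw [zero_add] at a3
      simp only [List.range_succ, List.map_append, List.sum_append, List.map_cons, List.map_nil,
        List.sum_cons, List.sum_nil]
      rw [a3] at a4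
      simp only [ell] at a4
      rw [pow_succ] at a1 ⊢
      rw [pow_succ]; omega
  have key : ∀ i ≤ K, ∃ t σ, Inv ω z 0 (P + 1) (fun _ => True) t (2 ^ i)
      (2 ^ i * (1 + i * 2 ^ (Λ + 2))) (2 ^ i) σ (4 * i * (1 / 2) ^ Λ * 2 ^ i) 0 := by
    intro i
    induction i with
    | zero =>
      intro _
      obtain ⟨t, ht⟩ := inv_zero hz
      exact ⟨t, 4, by simpa using ht⟩
    | succ i ih =>
      intro hi
      obtain ⟨t, σ, ht⟩ := ih (by omega)
      obtain ⟨t', h'⟩ := double (m := 0) (cK := 0) (κ := 0) hz (List.range (i + Λ + 1))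
        List.length_range List.nodup_range (fun n hn => by
          have := List.mem_range.1 hn
          refine ⟨by omega, by omega, ?_⟩
          rcases Nat.eq_zero_or_pos n with h | h
          · exact Or.inl h
          · exact Or.inr (ha _ (by omega))) (cost _ (by omega)) le_rfl (by omega)
        (Or.inl ⟨rfl, rfl⟩) ht
      rw [pow_succ' 2 i]
      refine ⟨t', _, h'.mono ?_ (le_of_eq (by ring)) le_rfl (le_of_eq ?_) (by simp)⟩
      · have : 0 < 2 ^ i * 2 ^ Λ := by positivity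
        rw [show i + Λ + 1 + 1 = i + (Λ + 2) by ring, pow_add 2 i, pow_add 2 Λ]
        nlinarith
      · have e : (1 / 2 : ℝ) ^ i * 2 ^ i = 1 := by rw [← mul_pow]; norm_num
        push_cast
        rw [show i + Λ + 1 + (0 - 0) = i + Λ + 1 from rfl, pow_succ, pow_add, pow_succ]
        linear_combination (8 * (1 / 2) ^ Λ * 2 ^ i) * e
  obtain ⟨t, σ, ht⟩ := key K le_rfl
  refine growth_of_inv ht ?_
  have a1 : (32 : ℝ) * K ≤ 2 ^ Λ := by exact_mod_cast hΛ
  have a2 : (4 : ℝ) * K * (1 / 2) ^ Λ ≤ 1 / 8 := by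
    rw [one_div, inv_pow, ← div_eq_mul_inv, div_le_iff₀ (by positivity)]; linarith
  have := mul_le_mul_of_nonneg_right a2 (show (0 : ℝ) ≤ 2 ^ K by positivity)
  linarith

theorem two_all (h : NC ω) {j : Fin 3} (hj : ∀ n, ω n ≠ j) (K : ℕ) :
    Real.exp (2 ^ K / 4) ≤ growth (gens ω) (257 * 2 ^ K * (K + 1) ^ 2) := by
  obtain ⟨Λ, c1, c2⟩ := exists_pow (32 * (K + 1)) (by omega)
  set m := 257 * 2 ^ K * (K + 1) ^ 2 with hm
  have a1 := two_core (ω := fun n => if n < 2 * m + K + Λ then ω n else j) (z := inact j)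
    (P := 2 * m + K + Λ) (K := K) (Λ := Λ) (by simp)
    (fun n hn => by rw [if_pos hn, col_iff]; exact inact_ne (hj n).symm) (by omega) (by omega)
  have a2 : 2 ^ K * (1 + K * 2 ^ (Λ + 2)) ≤ m := by
    rw [hm, mul_comm 257, mul_assoc, pow_add]
    exact Nat.mul_le_mul_left _ (by nlinarith)
  refine a1.trans ?_
  exact_mod_cast (growth_mono _ a2).trans
    (growth_transfer h (n := 2 * m + K + Λ) (fun k hk => by rw [if_pos hk]) (by omega))

def lift (u : Fin 3) : Word → Word
  | [] => []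
  | none :: w => none :: some u :: none :: lift u w
  | some s :: w => some s :: lift u w

theorem lift_spec {i u : Fin 3} (h : col i u = true) (w : Word) :
    (lift u w).length ≤ 3 * w.length ∧ sec i (lift u w) true = w := by
  induction w with
  | nil => simp [lift, sec]
  | cons x w ih =>
    cases x <;> simp only [lift, sec, h, ih.2, List.length_cons, Bool.not_true, Bool.not_false,
      if_true, and_true] <;> omega

theorem growth_shift (ω : ℕ → Fin 3) (m : ℕ) :
    growth (gens (shift ω)) m ≤ growth (gens ω) (3 * m) := by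
  classical
  rw [growth_eq, growth_eq]
  have hw : ∀ g, InBall (shift ω) m g → ∃ w : Word, w.length ≤ m ∧ evP (shift ω) w = g :=
    fun _ hg => hg
  choose! wd h1 h2 using hw
  have hc := col_sel ω 1
  refine Set.ncard_le_ncard_of_injOn (fun g => evP ω (lift (sel ω 1) (wd g)))
    (fun g hg => ⟨_, (lift_spec hc _).1.trans (by have := h1 g hg; omega), rfl⟩)
    (fun g hg g' hg' e => ?_) (ball_finite ω _)
  ext1 v
  have e' := congrArg (fun f : Equiv.Perm Vx => f (true :: v)) e
  simp only [evP_apply, run_cons, (lift_spec hc _).2, List.cons.injEq] at e'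
  rw [← h2 g hg, ← h2 g' hg', evP_apply, evP_apply, e'.2]

theorem growth_sh (k : ℕ) : ∀ (ω : ℕ → Fin 3) (m : ℕ),
    growth (gens (sh k ω)) m ≤ growth (gens ω) (3 ^ k * m) := by
  induction k with
  | zero => intro ω m; simp [sh_zero]
  | succ k ih =>
    intro ω m
    rw [← sh_shift, pow_succ', mul_assoc]
    exact (ih _ m).trans (growth_shift ω _)

theorem cube_le_pow {l : ℕ} (h : 11 ≤ l) : (l + 1) ^ 3 ≤ 2 ^ l := by
  induction l, h using Nat.le_induction with
  | base => norm_num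
  | succ l h ih => rw [pow_succ 2]; nlinarith [Nat.mul_le_mul_right (l * l) h]

theorem log_bounds {n : ℕ} (hn : 2 ≤ n) :
    (Nat.log 2 n : ℝ) ≤ 3 / 2 * Real.log n ∧ 2 / 3 ≤ Real.log n := by
  have a1 : ((2 ^ Nat.log 2 n : ℕ) : ℝ) ≤ n := by
    exact_mod_cast Nat.pow_log_le_self 2 (by omega)
  have a2 := Real.log_le_log (by positivity) a1
  have a3 := Real.log_le_log (by norm_num) (show (2 : ℝ) ≤ n by exact_mod_cast hn)
  have a4 := Real.log_two_gt_d9
  push_cast at a2
  rw [Real.log_pow] at a2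
  have : (0 : ℝ) ≤ Nat.log 2 n := by positivity
  constructor <;> nlinarith

theorem two_lower (h : NC ω) {j : Fin 3} {k : ℕ} (hj : ∀ m ≥ k, ω m ≠ j) :
    ∃ c : ℝ, 0 < c ∧ ∀ᶠ n : ℕ in Filter.atTop,
      Real.exp (c * n / Real.log n ^ 2) ≤ growth (gens ω) n := by
  obtain ⟨A, hA⟩ : ∃ A, A = 3 ^ k * 257 := ⟨_, rfl⟩
  have A0 : 0 < A := by rw [hA]; positivity
  refine ⟨1 / (72 * A), by positivity, Filter.eventually_atTop.2 ⟨2 ^ (A + 11), fun n hn => ?_⟩⟩
  have l1 : A + 11 ≤ Nat.log 2 n := Nat.le_log_of_pow_le (by norm_num) hn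
  have n2 : 2 ≤ n := (Nat.le_self_pow (by omega) 2).trans hn
  have l2 := Nat.pow_log_le_self 2 (show n ≠ 0 by omega)
  obtain ⟨l3, l4⟩ := log_bounds n2
  have l5 : ∀ x ≤ n, Nat.log 2 x ≤ Nat.log 2 n := fun x hx => Nat.log_mono_right hx
  generalize Nat.log 2 n = l at *
  obtain ⟨B, hB⟩ : ∃ B, B = A * (l + 1) ^ 2 := ⟨_, rfl⟩
  have B0 : 0 < B := by rw [hB]; positivity
  have B1 : B ≤ n := by
    refine le_trans ?_ ((cube_le_pow (by omega)).trans l2)
    rw [hB, pow_succ' _ 2]
    exact Nat.mul_le_mul_right _ (by omega)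
  have q0 : n / B ≠ 0 := (Nat.div_pos B1 B0).ne'
  have q1 := Nat.pow_log_le_self 2 q0
  have q2 := Nat.lt_pow_succ_log_self (b := 2) (by norm_num) (n / B)
  have q3 := Nat.mul_div_le n B
  have q4 := Nat.lt_mul_div_succ n B0
  have q5 : Nat.log 2 (n / B) ≤ l := l5 _ (Nat.div_le_self _ _)
  generalize Nat.log 2 (n / B) = K at *
  have a1 := two_all (ω := sh k ω) (fun n s => by
    obtain ⟨m, b1, b2⟩ := h (n + k) s
    exact ⟨m - k, by omega, by simp only [sh]; rwa [Nat.sub_add_cancel (by omega)]⟩)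
    (j := j) (fun n => hj _ (by omega)) K
  have a2 : 3 ^ k * (257 * 2 ^ K * (K + 1) ^ 2) ≤ n := by
    calc _ = A * (K + 1) ^ 2 * 2 ^ K := by rw [hA]; ring
      _ ≤ B * (n / B) := Nat.mul_le_mul (by rw [hB]; gcongr) q1
      _ ≤ n := q3
  refine le_trans (Real.exp_le_exp.2 ?_) (a1.trans ?_)
  · have b1 : (n : ℝ) ≤ B * (2 ^ K * 2) := by
      have : n ≤ B * (2 ^ K * 2) := q4.le.trans (Nat.mul_le_mul_left _ (by rw [← pow_succ]; omega))
      exact_mod_cast this
    have b2 : (B : ℝ) ≤ A * (9 * Real.log n ^ 2) := by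
      rw [hB]; push_cast
      exact mul_le_mul_of_nonneg_left (by nlinarith [Nat.cast_nonneg (α := ℝ) l]) (by positivity)
    have b3 := mul_le_mul_of_nonneg_right b2 (show (0 : ℝ) ≤ 2 ^ K * 2 by positivity)
    rw [div_le_iff₀ (by positivity), one_div, inv_mul_le_iff₀ (by positivity)]
    linarith
  · exact_mod_cast (growth_sh k ω _).trans (growth_mono ω a2)

theorem gn_change {t : ℕ} (h : ω t ≠ ω (t + 1)) : gn ω (t + 1) + 1 / 2 ≤ gn ω (t + 2) := by
  have h1 := inact_ne h
  obtain ⟨x, x1, x2⟩ := (by decide : ∀ a b : Fin 3, ∃ x, x ≠ a ∧ x ≠ b) (inact (ω t))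
    (inact (ω (t + 1)))
  have a1 := gn_eq (ω := ω) (t + 1) x1 x2 h1
  have a2 := gn_eq (ω := ω) (t + 1 + 1) x1 x2 h1
  rw [en_act x2.symm, en_act h1.symm] at a2
  have a7 : en ω (inact (ω (t + 1))) (t + 1 + 1) = gn ω (t + 1) / 2 := en_hit rfl
  have a3 : en ω (inact (ω t)) (t + 1) = gn ω t / 2 := en_hit rfl
  have a4 : en ω (inact (ω (t + 1))) (t + 1) = en ω (inact (ω (t + 1))) t := en_act h1
  have a5 : 2 * en ω (inact (ω (t + 1))) t ≤ gn ω t := by
    unfold en gn
    rw [← mul_div_assoc]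
    exact div_le_div_of_nonneg_right (by exact_mod_cast ell_tri ω t _) (by positivity)
  have a6 : 1 ≤ en ω x (t + 1) := by
    have := en_mono (ω := ω) x (Nat.zero_le (t + 1))
    simpa [en, ell] using this
  show _ ≤ gn ω (t + 1 + 1)
  linarith

theorem runs_upper {R : ℕ} (h : ∀ k, ∃ m < R, ω (k + m) ≠ ω (k + m + 1)) :
    ∃ C : ℝ, ∀ᶠ n : ℕ in Filter.atTop, (growth (gens ω) n : ℝ) ≤
      Real.exp (C * n * Real.log (Real.log n) / Real.log n) := by
  have g1 : ∀ j : ℕ, (j : ℝ) / 2 ≤ gn ω ((R + 1) * j) := by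
    intro j
    induction j with
    | zero => have := gn_pos (ω := ω) 0; simp; linarith
    | succ j ih =>
      obtain ⟨m, m1, m2⟩ := h ((R + 1) * j)
      have a1 := gn_change m2
      have a2 := gn_mono (ω := ω) (show (R + 1) * j ≤ (R + 1) * j + m + 1 by omega)
      have a3 := gn_mono (ω := ω) (show (R + 1) * j + m + 2 ≤ (R + 1) * (j + 1) by
        rw [mul_add]; omega)
      push_cast; linarith
  refine ⟨2304 * (R + 1), ?_⟩
  filter_upwards [(Real.tendsto_log_atTop.comp tendsto_natCast_atTop_atTop).eventually_ge_atTop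
    (4 * R + 14), Filter.eventually_ge_atTop 2] with n hl hn
  replace hl : 4 * (R : ℝ) + 14 ≤ Real.log n := hl
  set K := kap ω n with hKdef
  have h1 : n ≤ lenSum ω K := by
    by_contra hc
    have := (kap_spec ω n K).1 (by omega)
    omega
  have h2 : lenSum ω K ≤ 3 * n ∧ K ≤ Nat.log 2 n + 1 := by
    rcases Nat.eq_zero_or_pos K with h0 | h0
    · rw [h0, lenSum_zero]; omega
    · have h3 := (kap_spec ω n (K - 1)).2 (by omega)
      have h4 := lenSum_three ω (K - 1)
      have h5 := le_log h3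
      rw [show K - 1 + 1 = K by omega] at h4
      omega
  have h3 := growth_le_log ω n K h1
  clear_value K
  have R0 : (0 : ℝ) ≤ R := by positivity
  have K0 : (0 : ℝ) ≤ K := by positivity
  have h4 : Real.log n ≤ 2 * (K + 1) := by
    have a1 := lenSum_three_pow ω 0 K
    rw [zero_add, lenSum_zero, ← pow_succ] at a1
    have a2 : (n : ℝ) ≤ 3 ^ (K + 1) := by exact_mod_cast h1.trans a1
    have a3 := Real.log_le_log (by positivity) a2
    have a4 := Real.log_le_sub_one_of_pos (show (0 : ℝ) < 3 by norm_num)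
    rw [Real.log_pow] at a3
    push_cast at a3
    nlinarith
  have h5 : (2 : ℝ) ^ K * Real.log n ≤ 48 * (R + 1) * n := by
    have a1 := (g1 (K / (R + 1))).trans (gn_mono (Nat.mul_div_le K (R + 1)))
    have a2 : (K : ℝ) < (R + 1) * ((K / (R + 1) : ℕ) + 1) := by
      exact_mod_cast Nat.lt_mul_div_succ K (show 0 < R + 1 by omega)
    have a3 : (lenSum ω K : ℝ) ≤ 3 * n := by exact_mod_cast h2.1
    unfold gn at a1
    rw [le_div_iff₀ (by positivity)] at a1
    generalize ((K / (R + 1) : ℕ) : ℝ) = q at *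
    have p : (0 : ℝ) < 2 ^ K := by positivity
    have a4 : Real.log n ≤ 8 * ((R + 1) * q) := by linarith
    have a5 := mul_le_mul_of_nonneg_left a4 p.le
    have a6 := mul_le_mul_of_nonneg_left (a1.trans a3) (show (0 : ℝ) ≤ R + 1 by positivity)
    linarith
  have h6 : Real.log (6 * (K + 4) + 1) ≤ 2 * Real.log (Real.log n) := by
    have a1 : (K : ℝ) ≤ Nat.log 2 n + 1 := by exact_mod_cast h2.2
    have a2 := (log_bounds hn).1
    have a3 : (6 * (K + 4) + 1 : ℝ) ≤ Real.log n ^ 2 := by nlinarith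
    have := Real.log_le_log (by positivity) a3
    rwa [Real.log_pow] at this
  have h7 : 0 ≤ Real.log (Real.log n) := Real.log_nonneg (by linarith)
  refine (Nat.cast_le.2 h3).trans ?_
  push_cast
  rw [← Real.exp_log (show (0 : ℝ) < 6 * (K + 4) + 1 by positivity), ← Real.exp_nat_mul,
    Real.exp_le_exp, le_div_iff₀ (by linarith)]
  push_cast
  have a1 := mul_le_mul h5 h6 (Real.log_nonneg (by linarith)) (by positivity)
  linarith

end Pool.Agent.MP_fbbd83_al.Lc
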